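import Pool.Agent.N984.DI.Stm

set_option autoImplicit false

namespace Pool.Agent.N814.DI

open Matrix Finset Pool.Agent.N984.DI
open scoped ComplexOrder

theorem t_SPD : SPD := by
  intro n X hX
  set x0 : Fin n → ℝ := hX.eigenvalues with hx0
  let σ : Equiv.Perm (Fin n) := Tuple.sort (fun i => - x0 i)
  have hmono : Monotone ((fun i => - x0 i) ∘ σ) := Tuple.monotone_sort _
  set U0 : Matrix (Fin n) (Fin n) ℂ := (hX.eigenvectorUnitary : Matrix (Fin n) (Fin n) ℂ) with hU0
  have hU0u : U0 ∈ Matrix.unitaryGroup (Fin n) ℂ := hX.eigenvectorUnitary.2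
  have hspec : X = U0 * Matrix.diagonal (fun i => (x0 i : ℂ)) * U0ᴴ := by
    have h := hX.spectral_theorem
    rw [Unitary.conjStarAlgAut_apply] at h
    exact h
  refine ⟨U0.submatrix id σ, ?_, fun i => x0 (σ i), ?_, ?_⟩
  · rw [Matrix.mem_unitaryGroup_iff']
    have h1 : star U0 * U0 = 1 := (Matrix.mem_unitaryGroup_iff').1 hU0u
    ext i j
    have h2 := congrFun (congrFun h1 (σ i)) (σ j)
    simp only [Matrix.mul_apply, Matrix.star_apply, Matrix.submatrix_apply, id,
      Matrix.one_apply, σ.injective.eq_iff] at h2 ⊢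
    exact h2
  · intro i j hij
    have := hmono hij
    simp only [Function.comp] at this
    linarith
  · rw [hspec]
    ext i j
    rw [dg, Matrix.mul_apply, Matrix.mul_apply]
    simp only [Matrix.mul_diagonal, Matrix.conjTranspose_apply, Matrix.submatrix_apply, id]
    exact (Equiv.sum_comp σ (fun k => U0 i k * (x0 k : ℂ) * star (U0 j k))).symm

end Pool.Agent.N814.DI
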